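import Pool.Agent.Helper43.MT.Goursat
import Pool.Agent.Helper90.MC.Link

/-!
Project KN, block D'. Goursat's lemma for special linear Lie algebras: blocks whose weight multiplicities differ by more than a
shift and a reflection are not linked.
-/

set_option autoImplicit false

open Matrix

namespace Pool.Agent.Helper15.KN

section eig

variable {K V V' : Type*} [Field K] [AddCommGroup V] [Module K V] [AddCommGroup V'] [Module K V']

theorem R_mul_A {A : Module.End K V} {P : Finset ℤ} {R : ℤ → Module.End K V}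
    (hmul : ∀ p q, R p * R q = if p = q then R p else 0) (hsupp : ∀ p, p ∉ P → R p = 0)
    (hA : A = ∑ p ∈ P, (p : K) • R p) (q : ℤ) : R q * A = (q : K) • R q := by
  rw [hA, Finset.mul_sum]
  by_cases hq : q ∈ P
  · rw [Finset.sum_eq_single q]
    · rw [mul_smul_comm, hmul, if_pos rfl]
    · intro p _ hp
      rw [mul_smul_comm, hmul, if_neg hp.symm, smul_zero]
    · intro h
      exact absurd hq h
  · rw [hsupp q hq, smul_zero]
    exact Finset.sum_eq_zero fun p _ => by rw [zero_mul]

theorem A_mul_R {A : Module.End K V} {P : Finset ℤ} {R : ℤ → Module.End K V}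
    (hmul : ∀ p q, R p * R q = if p = q then R p else 0) (hsupp : ∀ p, p ∉ P → R p = 0)
    (hA : A = ∑ p ∈ P, (p : K) • R p) (q : ℤ) : A * R q = (q : K) • R q := by
  rw [hA, Finset.sum_mul]
  by_cases hq : q ∈ P
  · rw [Finset.sum_eq_single q]
    · rw [smul_mul_assoc, hmul, if_pos rfl]
    · intro p _ hp
      rw [smul_mul_assoc, hmul, if_neg hp, smul_zero]
    · intro h
      exact absurd hq h
  · rw [hsupp q hq, smul_zero]
    exact Finset.sum_eq_zero fun p _ => by rw [mul_zero]

theorem R_zero {A : Module.End K V} {P : Finset ℤ} {R : ℤ → Module.End K V}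
    (hmul : ∀ p q, R p * R q = if p = q then R p else 0) (hsupp : ∀ p, p ∉ P → R p = 0)
    (hA : A = ∑ p ∈ P, (p : K) • R p) {μ : K} {v : V} (hv : A v = μ • v) (q : ℤ) (hq : μ ≠ q) : R q v = 0 := by
  have h1 := LinearMap.congr_fun (R_mul_A hmul hsupp hA q) v
  rw [Module.End.mul_apply, hv, map_smul, LinearMap.smul_apply] at h1
  have h2 : (μ - q) • R q v = 0 := by rw [sub_smul, h1, sub_self]
  exact (smul_eq_zero.1 h2).resolve_left (sub_ne_zero.2 hq)

theorem eig_int [CharZero K] {A : Module.End K V} {P : Finset ℤ} {R : ℤ → Module.End K V}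
    (hmul : ∀ p q, R p * R q = if p = q then R p else 0) (hsum : ∑ p ∈ P, R p = 1)
    (hsupp : ∀ p, p ∉ P → R p = 0) (hA : A = ∑ p ∈ P, (p : K) • R p) (p : ℤ) :
    Module.End.eigenspace A (p : K) = LinearMap.range (R p) := by
  ext v
  rw [Module.End.mem_eigenspace_iff]
  constructor
  · intro hv
    refine ⟨v, ?_⟩
    have h1 := LinearMap.congr_fun hsum v
    rw [LinearMap.sum_apply, Module.End.one_apply] at h1
    have h0 : ∀ q, q ≠ p → R q v = 0 := fun q hq =>
      R_zero hmul hsupp hA hv q fun h => hq (Int.cast_injective h).symm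
    by_cases hp : p ∈ P
    · rw [Finset.sum_eq_single p (fun q _ hq => h0 q hq) fun h => absurd hp h] at h1
      exact h1
    · rw [Finset.sum_eq_zero fun q hq => h0 q fun h => hp (h ▸ hq)] at h1
      rw [← h1, map_zero]
  · rintro ⟨u, rfl⟩
    exact LinearMap.congr_fun (A_mul_R hmul hsupp hA p) u

theorem eig_not_int {A : Module.End K V} {P : Finset ℤ} {R : ℤ → Module.End K V}
    (hmul : ∀ p q, R p * R q = if p = q then R p else 0) (hsum : ∑ p ∈ P, R p = 1)
    (hsupp : ∀ p, p ∉ P → R p = 0) (hA : A = ∑ p ∈ P, (p : K) • R p) {μ : K} (hμ : ∀ p : ℤ, μ ≠ p) :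
    Module.End.eigenspace A μ = ⊥ := by
  rw [eq_bot_iff]
  intro v hv
  rw [Module.End.mem_eigenspace_iff] at hv
  have h1 := LinearMap.congr_fun hsum v
  rw [LinearMap.sum_apply, Module.End.one_apply, Finset.sum_eq_zero fun q _ =>
    R_zero hmul hsupp hA hv q (hμ q)] at h1
  rw [Submodule.mem_bot]
  exact h1.symm

theorem finrank_iso {A : Module.End K V} {A' : Module.End K V'} (T : V ≃ₗ[K] V') {c : K}
    (h : A' ∘ₗ T.toLinearMap - T.toLinearMap ∘ₗ A = c • T.toLinearMap) (μ : K) :
    Module.finrank K (Module.End.eigenspace A μ) = Module.finrank K (Module.End.eigenspace A' (μ + c)) := by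
  have h1 : ∀ v, A' (T v) = T (A v) + c • T v := fun v => by
    have := LinearMap.congr_fun h v
    exact sub_eq_iff_eq_add'.1 this
  have h2 : (Module.End.eigenspace A μ).map T.toLinearMap = Module.End.eigenspace A' (μ + c) := by
    ext w
    rw [Module.End.mem_eigenspace_iff]
    constructor
    · rintro ⟨v, hv, rfl⟩
      have hv' : A v = μ • v := Module.End.mem_eigenspace_iff.1 hv
      show A' (T v) = (μ + c) • T v
      rw [h1, hv', map_smul, add_smul]
    · intro hw
      refine ⟨T.symm w, ?_, T.apply_symm_apply w⟩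
      have h3 := h1 (T.symm w)
      rw [T.apply_symm_apply, hw, add_smul] at h3
      have h4 : T (A (T.symm w)) = μ • w := (add_right_cancel h3).symm
      refine Module.End.mem_eigenspace_iff.2 (T.injective ?_)
      rw [h4, map_smul, T.apply_symm_apply]
  rw [← h2]
  exact (LinearEquiv.finrank_map_eq T _).symm

theorem finrank_dual [FiniteDimensional K V'] (A' : Module.End K V') (μ : K) :
    Module.finrank K (Module.End.eigenspace (A'.dualMap : Module.End K (Module.Dual K V')) μ) =
      Module.finrank K (Module.End.eigenspace A' μ) := by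
  have h1 := LinearMap.finrank_range_add_finrank_ker (A' - μ • (1 : Module.End K V'))
  have h2 := LinearMap.finrank_range_add_finrank_ker (A' - μ • (1 : Module.End K V')).dualMap
  rw [LinearMap.finrank_range_dualMap_eq_finrank_range, Subspace.dual_finrank_eq] at h2
  have h3 : (A' - μ • (1 : Module.End K V')).dualMap =
      (A'.dualMap : Module.End K (Module.Dual K V')) - μ • 1 := by
    refine LinearMap.ext fun f => LinearMap.ext fun v => ?_
    show f ((A' - μ • (1 : Module.End K V')) v) = f (A' v) - μ • f v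
    rw [LinearMap.sub_apply, map_sub, LinearMap.smul_apply, map_smul, Module.End.one_apply]
  have e1 : Module.End.eigenspace A' μ = LinearMap.ker (A' - μ • (1 : Module.End K V')) := by
    ext v
    rw [Module.End.mem_eigenspace_iff, LinearMap.mem_ker, LinearMap.sub_apply, LinearMap.smul_apply,
      Module.End.one_apply, sub_eq_zero]
  have e2 : Module.End.eigenspace (A'.dualMap : Module.End K (Module.Dual K V')) μ =
      LinearMap.ker (A' - μ • (1 : Module.End K V')).dualMap := by
    rw [h3]
    ext v
    rw [Module.End.mem_eigenspace_iff, LinearMap.mem_ker, LinearMap.sub_apply, LinearMap.smul_apply,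
      Module.End.one_apply, sub_eq_zero]
  rw [e1, e2]
  omega

theorem finrank_iso_dual [FiniteDimensional K V'] {A : Module.End K V} {A' : Module.End K V'}
    (T : V ≃ₗ[K] Module.Dual K V') {c : K}
    (h : A'.dualMap ∘ₗ T.toLinearMap + T.toLinearMap ∘ₗ A = c • T.toLinearMap) (μ : K) :
    Module.finrank K (Module.End.eigenspace A μ) = Module.finrank K (Module.End.eigenspace A' (c - μ)) := by
  have h1 : ∀ v, A'.dualMap (T v) = c • T v - T (A v) := fun v => by
    have := LinearMap.congr_fun h v
    exact eq_sub_iff_add_eq.2 this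
  have h2 : (Module.End.eigenspace A μ).map T.toLinearMap =
      Module.End.eigenspace (A'.dualMap : Module.End K (Module.Dual K V')) (c - μ) := by
    ext w
    rw [Module.End.mem_eigenspace_iff]
    constructor
    · rintro ⟨v, hv, rfl⟩
      have hv' : A v = μ • v := Module.End.mem_eigenspace_iff.1 hv
      show A'.dualMap (T v) = (c - μ) • T v
      rw [h1, hv', map_smul]
      exact (sub_smul c μ (T v)).symm
    · intro hw
      refine ⟨T.symm w, ?_, T.apply_symm_apply w⟩
      have h3 := h1 (T.symm w)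
      rw [T.apply_symm_apply, hw] at h3
      have h4 : T (A (T.symm w)) = μ • w := (sub_right_injective ((sub_smul c μ w).symm.trans h3)).symm
      refine Module.End.mem_eigenspace_iff.2 (T.injective ?_)
      rw [h4, map_smul, T.apply_symm_apply]
  rw [← finrank_dual A', ← h2]
  exact (LinearEquiv.finrank_map_eq T _).symm

end eig

section D
variable {K : Type} [Field K] [CharZero K] {X n : Type} [Fintype X] [DecidableEq X] [Fintype n] [DecidableEq n]

/-- multiplicities -/
theorem rank_eig {a : Matrix n n K} {P : Finset ℤ} {R : ℤ → Matrix n n K}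
    (hmul : ∀ p q, R p * R q = if p = q then R p else 0) (hsum : ∑ p ∈ P, R p = 1)
    (hsupp : ∀ p, p ∉ P → R p = 0) (ha : a = ∑ p ∈ P, (p : K) • R p) :
    (∀ p : ℤ, Module.finrank K (Module.End.eigenspace (Matrix.toLinAlgEquiv' a) (p : K)) = (R p).rank) ∧
    ∀ μ : K, (∀ p : ℤ, μ ≠ p) → Module.finrank K (Module.End.eigenspace (Matrix.toLinAlgEquiv' a) μ) = 0 := by
  have h1 : ∀ p q, Matrix.toLinAlgEquiv' (R p) * Matrix.toLinAlgEquiv' (R q) =
      if p = q then Matrix.toLinAlgEquiv' (R p) else 0 := by
    intro p q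
    rw [← map_mul, hmul]
    split_ifs
    · rfl
    · exact map_zero _
  have h2 : ∑ p ∈ P, Matrix.toLinAlgEquiv' (R p) = 1 := by
    rw [← map_sum, hsum, map_one]
  have h3 : ∀ p, p ∉ P → Matrix.toLinAlgEquiv' (R p) = 0 := fun p hp => by rw [hsupp p hp, map_zero]
  have h4 : Matrix.toLinAlgEquiv' a = ∑ p ∈ P, (p : K) • Matrix.toLinAlgEquiv' (R p) := by
    rw [ha, map_sum]
    exact Finset.sum_congr rfl fun p _ => map_smul _ _ _
  refine ⟨fun p => ?_, fun μ hμ => ?_⟩
  · rw [eig_int h1 h2 h3 h4 p]
    rfl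
  · rw [eig_not_int h1 h2 h3 h4 hμ, finrank_bot]

/-- D': Goursat's lemma -/
theorem goursat [IsAlgClosed K] (L : Submodule K (X → Matrix n n K)) (hbr : ∀ a ∈ L, ∀ b ∈ L, a * b - b * a ∈ L)
    (hsur : ∀ x, ∀ c : Matrix n n K, c.trace = 0 → ∃ a ∈ L, a x = c)
    (hsep : ∀ x x', x ≠ x' → ∃ (P : Finset ℤ) (R R' : ℤ → Matrix n n K), ∃ a ∈ L,
      (∀ p q, R p * R q = if p = q then R p else 0) ∧ (∀ p q, R' p * R' q = if p = q then R' p else 0) ∧
      ∑ p ∈ P, R p = 1 ∧ ∑ p ∈ P, R' p = 1 ∧ (∀ p, p ∉ P → R p = 0) ∧ (∀ p, p ∉ P → R' p = 0) ∧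
      a x = ∑ p ∈ P, (p : K) • R p ∧ a x' = ∑ p ∈ P, (p : K) • R' p ∧
      ∀ w : ℤ, (∃ p, (R p).rank ≠ (R' (w + p)).rank) ∧ ∃ p, (R p).rank ≠ (R' (w - p)).rank) :
    ∀ a : X → Matrix n n K, (∀ x, (a x).trace = 0) → a ∈ L := by
  intro a ha
  rcases isEmpty_or_nonempty n with hn | hn
  · have : a = 0 := by
      funext x
      ext i
      exact hn.elim i
    rw [this]
    exact L.zero_mem
  let φ : Matrix n n K ≃ₐ[K] Module.End K (n → K) := Matrix.toLinAlgEquiv'
  have hcard : (Fintype.card n : K) ≠ 0 := Nat.cast_ne_zero.2 Fintype.card_ne_zero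
  let 𝔳 : Submodule K (X → Module.End K (n → K)) :=
    { carrier := {f | (fun x => φ.symm (f x)) ∈ L}
      add_mem' := by
        intro f g hf hg
        have : (fun x => φ.symm ((f + g) x)) = (fun x => φ.symm (f x)) + fun x => φ.symm (g x) := by
          funext x
          exact map_add _ _ _
        show (fun x => φ.symm ((f + g) x)) ∈ L
        rw [this]
        exact L.add_mem hf hg
      zero_mem' := by
        have : (fun x => φ.symm ((0 : X → Module.End K (n → K)) x)) = 0 := by
          funext x
          exact map_zero _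
        show (fun x => φ.symm ((0 : X → Module.End K (n → K)) x)) ∈ L
        rw [this]
        exact L.zero_mem
      smul_mem' := by
        intro c f hf
        have : (fun x => φ.symm ((c • f) x)) = c • fun x => φ.symm (f x) := by
          funext x
          exact map_smul φ.symm c (f x)
        show (fun x => φ.symm ((c • f) x)) ∈ L
        rw [this]
        exact L.smul_mem c hf }
  have hmem : ∀ b ∈ L, (fun x => φ (b x)) ∈ 𝔳 := by
    intro b hb
    show (fun x => φ.symm (φ (b x))) ∈ L
    have : (fun x => φ.symm (φ (b x))) = b := by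
      funext x
      exact φ.symm_apply_apply _
    rw [this]
    exact hb
  have hlie : ∀ f ∈ 𝔳, ∀ g ∈ 𝔳, f * g - g * f ∈ 𝔳 := by
    intro f hf g hg
    have h1 := hbr _ hf _ hg
    show (fun x => φ.symm ((f * g - g * f) x)) ∈ L
    have : (fun x => φ.symm ((f * g - g * f) x)) = (fun x => φ.symm (f x)) * (fun x => φ.symm (g x)) -
        (fun x => φ.symm (g x)) * fun x => φ.symm (f x) := by
      funext x
      show φ.symm (f x * g x - g x * f x) = φ.symm (f x) * φ.symm (g x) - φ.symm (g x) * φ.symm (f x)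
      rw [map_sub, map_mul, map_mul]
    rw [this]
    exact h1
  have hfull0 : ∀ (i : X) (y : Module.End K (n → K)), ∃ f ∈ 𝔳, ∃ c : K, f i + c • 1 = y := by
    intro i y
    obtain ⟨b, hb, hbi⟩ := hsur i (φ.symm y - ((φ.symm y).trace / Fintype.card n) • 1) (by
      rw [Matrix.trace_sub, Matrix.trace_smul, Matrix.trace_one, smul_eq_mul, div_mul_cancel₀ _ hcard,
        sub_self])
    refine ⟨_, hmem b hb, (φ.symm y).trace / Fintype.card n, ?_⟩
    show φ (b i) + _ = y
    rw [hbi, map_sub, φ.apply_symm_apply, map_smul, map_one, sub_add_cancel]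
  have htr : ∀ M : Matrix n n K, LinearMap.trace K (n → K) (φ M) = M.trace := fun M =>
    Matrix.trace_toLin'_eq M
  have hfin : Module.finrank K (n → K) = Fintype.card n := Module.finrank_fintype_fun_eq_card K
  have hV : Nontrivial (n → K) := inferInstance
  -- no links between different blocks
  have hno : ∀ i j : X, i ≠ j → (¬ ∃ T : (n → K) ≃ₗ[K] (n → K), ∀ f ∈ 𝔳, ∃ c : K,
      f j ∘ₗ T.toLinearMap - T.toLinearMap ∘ₗ f i = c • T.toLinearMap) ∧
      ¬ ∃ T : (n → K) ≃ₗ[K] Module.Dual K (n → K), ∀ f ∈ 𝔳, ∃ c : K,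
      (f j).dualMap ∘ₗ T.toLinearMap + T.toLinearMap ∘ₗ f i = c • T.toLinearMap := by
    intro i j hij
    obtain ⟨P, R, R', b, hb, h1, h1', h2, h2', h3, h3', h4, h4', hw⟩ := hsep i j hij
    obtain ⟨e1, e2⟩ := rank_eig h1 h2 h3 h4
    obtain ⟨e1', e2'⟩ := rank_eig h1' h2' h3' h4'
    obtain ⟨p₀, hp₀⟩ : ∃ p₀, (R p₀).rank ≠ 0 := by
      by_contra hcon
      push Not at hcon
      have h5 : ∀ p, R p = 0 := fun p => by
        have h7 : LinearMap.range (Matrix.toLinAlgEquiv' (R p)) = ⊥ := Submodule.finrank_eq_zero.1 (hcon p)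
        exact Matrix.toLinAlgEquiv'.injective ((LinearMap.range_eq_bot.1 h7).trans (map_zero _).symm)
      have h6 : (1 : Matrix n n K) = 0 := by
        rw [← h2]
        exact Finset.sum_eq_zero fun p _ => h5 p
      exact one_ne_zero h6
    constructor
    · rintro ⟨T, hT⟩
      obtain ⟨c, hc⟩ := hT _ (hmem b hb)
      have h5 := finrank_iso T hc
      obtain ⟨q₀, hq₀⟩ : ∃ q : ℤ, (p₀ : K) + c = q := by
        by_contra hcon
        push Not at hcon
        have h6 := h5 p₀
        rw [e1 p₀] at h6
        rw [h6] at hp₀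
        exact hp₀ (e2' _ hcon)
      obtain ⟨p, hp⟩ := (hw (q₀ - p₀)).1
      apply hp
      have h8 : (p : K) + c = ((q₀ - p₀ + p : ℤ) : K) := by
        push_cast
        rw [← hq₀]
        ring
      rw [← e1 p, ← e1' _, h5 p, h8]
    · rintro ⟨T, hT⟩
      obtain ⟨c, hc⟩ := hT _ (hmem b hb)
      have h5 := finrank_iso_dual T hc
      obtain ⟨q₀, hq₀⟩ : ∃ q : ℤ, c - (p₀ : K) = q := by
        by_contra hcon
        push Not at hcon
        have h6 := h5 p₀
        rw [e1 p₀] at h6
        rw [h6] at hp₀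
        exact hp₀ (e2' _ hcon)
      obtain ⟨p, hp⟩ := (hw (q₀ + p₀)).2
      apply hp
      have h8 : c - (p : K) = ((q₀ + p₀ - p : ℤ) : K) := by
        push_cast
        rw [← hq₀]
        ring
      rw [← e1 p, ← e1' _, h5 p, h8]
  have hmain := Pool.Agent.Helper43.MT.goursat (V := fun _ : X => (n → K)) 𝔳 hlie (fun i _ => hfull0 i)
    (fun i j hi hs => Pool.Agent.Helper90.MC.fam_link_ac 𝔳 hlie (fun i _ => hfull0 i) i j hi hs)
    (fun x => φ (a x)) (fun x => (htr (a x)).trans (ha x)) (fun i j T hT => ?_) fun i j T hT => ?_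
  · have h1 : (fun x => φ.symm (φ (a x))) ∈ L := hmain
    have h2 : (fun x => φ.symm (φ (a x))) = a := by
      funext x
      exact φ.symm_apply_apply _
    rwa [h2] at h1
  · by_cases hij : i = j
    · subst hij
      obtain ⟨f, hf, c', hc'⟩ := hfull0 i (φ (a i))
      obtain ⟨c, hc⟩ := hT f hf
      have h1 : ∀ v, φ (a i) (T v) - T (φ (a i) v) = c • T v := by
        intro v
        have h2 := LinearMap.congr_fun hc v
        rw [← hc']
        simp only [LinearMap.add_apply, LinearMap.smul_apply, Module.End.one_apply, map_add, map_smul,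
          LinearMap.sub_apply, LinearMap.comp_apply, LinearEquiv.coe_coe] at h2 ⊢
        rw [← h2]
        abel
      have h3 : φ (a i) - T.toLinearMap ∘ₗ φ (a i) ∘ₗ T.symm.toLinearMap = c • 1 := by
        refine LinearMap.ext fun w => ?_
        have h4 := h1 (T.symm w)
        rw [T.apply_symm_apply] at h4
        exact h4
      have h5 := congrArg (LinearMap.trace K (n → K)) h3
      have h6 : LinearMap.trace K (n → K) (T.toLinearMap ∘ₗ φ (a i) ∘ₗ T.symm.toLinearMap) =
          LinearMap.trace K (n → K) (φ (a i)) := by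
        rw [LinearMap.trace_comp_comm']
        congr 1
        refine LinearMap.ext fun w => ?_
        show φ (a i) (T.symm (T w)) = _
        rw [T.symm_apply_apply]
      rw [map_sub, h6, sub_self, map_smul, LinearMap.trace_one, hfin, smul_eq_mul] at h5
      have h7 : c = 0 := (mul_eq_zero.1 h5.symm).resolve_right hcard
      refine LinearMap.ext fun v => ?_
      have h8 := h1 v
      rw [h7, zero_smul] at h8
      exact sub_eq_zero.1 h8
    · exact absurd ⟨T, hT⟩ (hno i j hij).1
  · by_cases hij : i = j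
    · subst hij
      obtain ⟨f, hf, c', hc'⟩ := hfull0 i (φ (a i))
      obtain ⟨c, hc⟩ := hT f hf
      have h1 : ∀ v, (φ (a i)).dualMap (T v) + T (φ (a i) v) = (c + 2 * c') • T v := by
        intro v
        have h2 := LinearMap.congr_fun hc v
        rw [← hc']
        have h3 : (f i + c' • (1 : Module.End K (n → K))).dualMap (T v) = (f i).dualMap (T v) + c' • T v := by
          refine LinearMap.ext fun w => ?_
          show T v (f i w + c' • w) = T v (f i w) + c' • T v w
          rw [map_add, map_smul]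
        rw [h3]
        simp only [LinearMap.add_apply, LinearMap.smul_apply, Module.End.one_apply, map_add, map_smul,
          LinearMap.comp_apply, LinearEquiv.coe_coe] at h2 ⊢
        rw [add_smul, ← h2, two_mul, add_smul]
        abel
      have h3 : (T.symm.toLinearMap ∘ₗ (φ (a i)).dualMap ∘ₗ T.toLinearMap) + φ (a i) = (c + 2 * c') • 1 := by
        refine LinearMap.ext fun w => T.injective ?_
        show T (T.symm ((φ (a i)).dualMap (T w)) + φ (a i) w) = T ((c + 2 * c') • w)
        rw [map_add, T.apply_symm_apply, h1, map_smul]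
      have h5 := congrArg (LinearMap.trace K (n → K)) h3
      have h6 : LinearMap.trace K (n → K) (T.symm.toLinearMap ∘ₗ (φ (a i)).dualMap ∘ₗ T.toLinearMap) =
          LinearMap.trace K (n → K) (φ (a i)) := by
        rw [LinearMap.trace_comp_comm', LinearMap.comp_assoc]
        have h7 : T.toLinearMap ∘ₗ T.symm.toLinearMap = LinearMap.id := by
          refine LinearMap.ext fun w => T.apply_symm_apply w
        rw [h7, LinearMap.comp_id]
        exact LinearMap.trace_transpose' _
      rw [map_add, h6, htr, ha, add_zero, map_smul, LinearMap.trace_one, hfin, smul_eq_mul] at h5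
      have h7 : c + 2 * c' = 0 := (mul_eq_zero.1 h5.symm).resolve_right hcard
      refine LinearMap.ext fun v => ?_
      have h8 := h1 v
      rw [h7, zero_smul] at h8
      exact h8
    · exact absurd ⟨T, hT⟩ (hno i j hij).2
end D

end Pool.Agent.Helper15.KN
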